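import Mathlib
import Pool.Agent.P.MP_50d982_co.Defs
import Pool.Agent.P.MP_50d982_co.Main

namespace Pool.Agent.P.MP_50d982_co.Old.AffineOutsideTwo

open Pool.Agent.P.MP_50d982_co

/-- A latin cuboid of odd prime order `p` with `2p-1` layers, each affine in every coordinate
outside a proper set `K` of at most two coordinates, has a transversal. -/
theorem result (p : ℕ) (hp : p.Prime) (h2 : p ≠ 2) (m : ℕ)
    (C : Fin (2 * p - 1) → (Fin m → ZMod p) → ZMod p) (hC : ∀ i, IsLatin (C i))
    (K : Finset (Fin m)) (hK : K.card ≤ 2) (hKu : K ≠ Finset.univ)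
    (ha : ∀ i, ∀ j ∉ K, ∃ a, AffineIn (C i) j a) : HasTransversal C := by
  have : Fact p.Prime := ⟨hp⟩
  exact all_but_two h2 C hC K hK hKu ha

end Pool.Agent.P.MP_50d982_co.Old.AffineOutsideTwo
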