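import Mathlib
import Pool.Agent.P.MP_50d982_co.Defs
import Pool.Agent.P.MP_50d982_co.HD

namespace Pool.Agent.P.MP_50d982_co.Old.HighDimension

open Pool.Agent.P.MP_50d982_co

/-- In high dimension a latin cuboid of order `q` with `2q-1` layers has a transversal if two
disjoint pools `A`, `B` of at most `q+1` layers in total show the symbols `a`, `b` on sets of
positions with total density above one. -/
theorem result (Q : Type) [Fintype Q] (m : ℕ)
    (C : Fin (2 * Fintype.card Q - 1) → (Fin m → Q) → Q) (hC : ∀ i, IsLatin (C i))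
    (A B : Finset (Fin (2 * Fintype.card Q - 1))) (hAB : Disjoint A B)
    (hcard : A.card + B.card ≤ Fintype.card Q + 1) (a b : Q) (hab : a ≠ b) (ε : ℝ) (hε : 0 < ε)
    (hd : (1 + ε) * (Fintype.card Q : ℝ) ^ m ≤
      (Set.ncard {x | ∃ i ∈ A, C i x = a} : ℝ) + (Set.ncard {x | ∃ i ∈ B, C i x = b} : ℝ))
    (hm : 9 * (Fintype.card Q : ℝ) ^ (2 * (Fintype.card Q - 2)) ≤ ε ^ 2 * 2 ^ m) :
    HasTransversal C := by
  classical
  have hq : 0 < Fintype.card Q := Fintype.card_pos_iff.2 ⟨a⟩
  refine two_pools C A B hAB (by omega) (fun i _ _ => hC i) hab hε ?_ hm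
  rw [← Set.ncard_coe_finset, ← Set.ncard_coe_finset]
  simpa only [Finset.coe_filter, Finset.mem_univ, true_and] using hd

end Pool.Agent.P.MP_50d982_co.Old.HighDimension
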