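import Mathlib
import Pool.Agent.P.MP_50d982_co.Defs
import Pool.Agent.P.MP_50d982_co.Main

namespace Pool.Agent.P.MP_50d982_co.Old.OrderThree

open Pool.Agent.P.MP_50d982_co

/-- Every latin cuboid of order `3` with `5` layers has a transversal, in every dimension. -/
theorem result (m : ℕ) (hm : 1 ≤ m) (C : Fin 5 → (Fin m → ZMod 3) → ZMod 3)
    (hC : ∀ i, IsLatin (C i)) : HasTransversal C :=
  order_three hm C hC

end Pool.Agent.P.MP_50d982_co.Old.OrderThree
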